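import Pool.Agent.helper27.TD.Spec

/-!
# Row td:KD (MP_16912e_nt): the determinant of the monomials at points of a sublattice
-/

set_option autoImplicit false

namespace Pool.Agent.helper27.TD

open Finset

/-- the coefficients of the expansion of `g^(1-i) n^i` -/
def KD_c (ζ : ℤ) (i' i : ℕ) : ℤ := if i = 0 then (if i' = 0 then ζ else 1) else (if i' = 0 then 1 else 0)

theorem KD_bin (b l : ℕ) (hl : l ≤ b) (h m ζ x y : ℤ) :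
    (h * (m * x + ζ * y)) ^ (b - l) * (h * y) ^ l =
      ∑ k : Fin (b + 1), (x ^ (k : ℕ) * y ^ (b - (k : ℕ))) *
        (h ^ b * m ^ (k : ℕ) * (((b - l).choose (k : ℕ) : ℕ) * ζ ^ (b - l - (k : ℕ)))) := by
  rw [Finset.sum_range (n := b + 1) (f := fun k => (x ^ k * y ^ (b - k)) *
        (h ^ b * m ^ k * (((b - l).choose k : ℕ) * ζ ^ (b - l - k)))) |>.symm]
  have hsub : range (b - l + 1) ⊆ range (b + 1) := by
    intro k hk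
    rw [mem_range] at hk ⊢
    omega
  rw [← Finset.sum_subset hsub (by
    intro k _ hk
    rw [mem_range, not_lt] at hk
    rw [Nat.choose_eq_zero_of_lt (by omega)]
    simp)]
  rw [mul_pow, add_pow, Finset.mul_sum, Finset.sum_mul]
  apply Finset.sum_congr rfl
  intro k hk
  rw [mem_range] at hk
  have e1 : b - k = (b - l - k) + l := by omega
  have e2 : h ^ b = h ^ (b - l) * h ^ l := by
    rw [← pow_add]
    congr 1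
    omega
  rw [e1, pow_add y, e2, mul_pow, mul_pow, mul_pow]
  ring

theorem KD_prod (b : ℕ) (h₁ m₁ h₂ m₂ : ℤ) :
    ∏ s : Ix b, (h₁ * m₁ ^ (s.1 : ℕ) * (h₂ ^ b * m₂ ^ (s.2 : ℕ))) =
      (h₁ ^ 2 * m₁) ^ (b + 1) * (h₂ ^ 2 * m₂) ^ (b * (b + 1)) := by
  rw [Fintype.prod_prod_type, Fin.prod_univ_two]
  have e : ∀ c : ℤ, ∏ l : Fin (b + 1), (c * (h₂ ^ b * m₂ ^ (l : ℕ))) =
      c ^ (b + 1) * (h₂ ^ (b * (b + 1)) * m₂ ^ (∑ l : Fin (b + 1), (l : ℕ))) := by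
    intro c
    rw [Finset.prod_mul_distrib, Finset.prod_const, Finset.prod_mul_distrib, Finset.prod_const,
      Finset.prod_pow_eq_pow_sum, Finset.card_univ, Fintype.card_fin, ← pow_mul]
  have e0 := e (h₁ * m₁ ^ ((0 : Fin 2) : ℕ))
  have e1 := e (h₁ * m₁ ^ ((1 : Fin 2) : ℕ))
  refine Eq.trans (congrArg₂ (fun s t => s * t) e0 e1) ?_
  have e2 : (∑ l : Fin (b + 1), (l : ℕ)) * 2 = b * (b + 1) := by
    rw [Fin.sum_univ_eq_sum_range (fun k => k) (b + 1), Finset.sum_range_id_mul_two]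
    simp only [Nat.add_sub_cancel]
    ring
  have e3 : m₂ ^ (b * (b + 1)) = m₂ ^ (∑ l : Fin (b + 1), (l : ℕ)) * m₂ ^ (∑ l : Fin (b + 1), (l : ℕ)) := by
    rw [← pow_add, ← e2]
    congr 1
    ring
  have e4 : ∀ n : ℕ, (h₂ ^ 2) ^ n = h₂ ^ n * h₂ ^ n := by
    intro n
    rw [← pow_mul, ← pow_add]
    congr 1
    ring
  rw [mul_pow (h₂ ^ 2), e3, e4]
  simp only [Fin.val_zero, Fin.val_one, pow_zero, pow_one, mul_one]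
  rw [mul_pow (h₁ ^ 2) m₁, ← pow_mul, mul_pow h₁ m₁]
  rw [show 2 * (b + 1) = (b + 1) + (b + 1) by ring, pow_add]
  ring

theorem KD (h : DTD_stmt) : KD_stmt := by
  intro b K l₁ l₂ hK₁ hK₂ P hP
  have hx : ∀ i, ∃ x₁ y₁ x₂ y₂ : ℤ, P i 0 = l₁.1 * (l₁.2.1 * x₁ + l₁.2.2 * y₁) ∧ P i 1 = l₁.1 * y₁ ∧
      P i 2 = l₂.1 * (l₂.2.1 * x₂ + l₂.2.2 * y₂) ∧ P i 3 = l₂.1 * y₂ := by
    intro i
    obtain ⟨⟨x₁, y₁, h1, h2⟩, ⟨x₂, y₂, h3, h4⟩⟩ := hP i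
    exact ⟨x₁, y₁, x₂, y₂, h1, h2, h3, h4⟩
  choose x₁ y₁ x₂ y₂ h1 h2 h3 h4 using hx
  set A : Matrix (Ix b) (Ix b) ℤ := Matrix.of fun i s =>
    (x₁ i ^ (s.1 : ℕ) * y₁ i ^ (1 - (s.1 : ℕ))) * (x₂ i ^ (s.2 : ℕ) * y₂ i ^ (b - (s.2 : ℕ))) with hA
  set B : Matrix (Ix b) (Ix b) ℤ := Matrix.of fun s c =>
    ((l₁.1 : ℤ) * (l₁.2.1 : ℤ) ^ (s.1 : ℕ) * KD_c l₁.2.2 (s.1 : ℕ) (c.1 : ℕ)) *
      ((l₂.1 : ℤ) ^ b * (l₂.2.1 : ℤ) ^ (s.2 : ℕ) *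
        (((b - (c.2 : ℕ)).choose (s.2 : ℕ) : ℕ) * (l₂.2.2 : ℤ) ^ (b - (c.2 : ℕ) - (s.2 : ℕ)))) with hB
  have hAB : mat b P = A * B := by
    ext i c
    rw [Matrix.mul_apply, Fintype.sum_prod_type]
    have hl : (c.2 : ℕ) ≤ b := by have := c.2.2; omega
    have e1 : mat b P i c = P i 0 ^ (1 - (c.1 : ℕ)) * P i 1 ^ (c.1 : ℕ) *
        (P i 2 ^ (b - (c.2 : ℕ)) * P i 3 ^ (c.2 : ℕ)) := rfl
    rw [e1, h3 i, h4 i, KD_bin b c.2 hl]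
    have e2 : P i 0 ^ (1 - (c.1 : ℕ)) * P i 1 ^ (c.1 : ℕ) = ∑ k : Fin 2,
        (x₁ i ^ (k : ℕ) * y₁ i ^ (1 - (k : ℕ))) *
          ((l₁.1 : ℤ) * (l₁.2.1 : ℤ) ^ (k : ℕ) * KD_c l₁.2.2 (k : ℕ) (c.1 : ℕ)) := by
      rw [Fin.sum_univ_two, h1 i, h2 i]
      have hc : (c.1 : ℕ) = 0 ∨ (c.1 : ℕ) = 1 := by have := c.1.2; omega
      rcases hc with hc | hc
      · rw [hc]
        simp [KD_c]
        ring
      · rw [hc]
        simp [KD_c]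
        ring
    rw [e2, Finset.sum_mul_sum]
    apply Finset.sum_congr rfl
    intro k _
    apply Finset.sum_congr rfl
    intro l _
    rw [hA, hB, Matrix.of_apply, Matrix.of_apply]
    ring
  rw [hAB]
  apply h (Ix b) (Ix b) A B (fun s => (l₁.1 : ℤ) * (l₁.2.1 : ℤ) ^ (s.1 : ℕ) *
    ((l₂.1 : ℤ) ^ b * (l₂.2.1 : ℤ) ^ (s.2 : ℕ)))
  · intro s c
    rw [hB, Matrix.of_apply]
    exact mul_dvd_mul (Dvd.intro _ rfl) (Dvd.intro _ rfl)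
  · intro f hf
    have hb := Finite.injective_iff_bijective.1 hf
    rw [Function.Bijective.prod_comp hb (fun s : Ix b => (l₁.1 : ℤ) * (l₁.2.1 : ℤ) ^ (s.1 : ℕ) *
      ((l₂.1 : ℤ) ^ b * (l₂.2.1 : ℤ) ^ (s.2 : ℕ))), KD_prod]
    have h5 : (K : ℤ) ∣ (l₁.1 : ℤ) ^ 2 * (l₁.2.1 : ℤ) := by exact_mod_cast hK₁
    have h6 : (K : ℤ) ^ 2 ∣ (l₂.1 : ℤ) ^ 2 * (l₂.2.1 : ℤ) := by exact_mod_cast hK₂
    have e : (K : ℤ) ^ ((b + 1) * (2 * b + 1)) = (K : ℤ) ^ (b + 1) * ((K : ℤ) ^ 2) ^ (b * (b + 1)) := by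
      rw [← pow_mul, ← pow_add]
      congr 1
      ring
    rw [e]
    exact mul_dvd_mul (pow_dvd_pow_of_dvd h5 _) (pow_dvd_pow_of_dvd h6 _)

end Pool.Agent.helper27.TD
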