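import Pool.Agent.helper27.TD.Spec

/-!
# Row td:LAT (MP_16912e_nt): lattice labels
-/

set_option autoImplicit false

namespace Pool.Agent.helper27.TD

open Finset Pool.Agent.helper47.RA

/-- the second label -/
def LAT_m (m h : ℕ) : ℕ := m / Nat.gcd m (h ^ 2)

theorem LAT_m_mul (m h : ℕ) : Nat.gcd m (h ^ 2) * LAT_m m h = m :=
  Nat.mul_div_cancel' (Nat.gcd_dvd_left _ _)

theorem LAT_m_pos {m : ℕ} (hm : 0 < m) (h : ℕ) : 0 < LAT_m m h := by
  have h1 := LAT_m_mul m h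
  rcases Nat.eq_zero_or_pos (LAT_m m h) with h0 | h0
  · rw [h0, mul_zero] at h1
    omega
  · exact h0

theorem LAT_m_dvd (m h : ℕ) : LAT_m m h ∣ m := Dvd.intro_left _ (LAT_m_mul m h)

theorem LAT_count {m z : ℕ} (hm : 0 < m) (hmz : m.Coprime z) :
    ((((range m).filter (fun ζ : ℕ => (m : ℤ) ∣ (ζ : ℤ) ^ 2 - z)).card : ℕ) : ℝ) ≤
      m.divisors.card * 3 := by
  classical
  set F := (range m).filter (fun ζ : ℕ => (m : ℤ) ∣ (ζ : ℤ) ^ 2 - z) with hF
  have h1 := card_roots_le m hm 2 (z : ℤ) (-1) m (F.image (fun ζ : ℕ => (ζ : ℤ)))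
    (by
      intro t ht
      rw [Finset.mem_image] at ht
      obtain ⟨ζ, hζ, rfl⟩ := ht
      rw [hF, Finset.mem_filter, mem_range] at hζ
      omega)
    (by
      intro t ht
      rw [Finset.mem_image] at ht
      obtain ⟨ζ, hζ, rfl⟩ := ht
      rw [hF, Finset.mem_filter] at hζ
      exact hζ.2)
    (by
      intro t ht h hh hd
      rw [Finset.mem_image] at ht
      obtain ⟨ζ, hζ, rfl⟩ := ht
      rw [hF, Finset.mem_filter] at hζ
      have hhm : h ∣ m := dvd_trans (Dvd.intro_left h (by ring)) hh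
      have hd' : h ∣ 2 * ζ := by exact_mod_cast hd
      have hcop : Nat.Coprime h ζ := by
        rw [Nat.coprime_iff_gcd_eq_one]
        by_contra hne
        obtain ⟨r, hr, hrd⟩ := Nat.exists_prime_and_dvd hne
        have hr1 : r ∣ h := hrd.trans (Nat.gcd_dvd_left _ _)
        have hr2 : r ∣ ζ := hrd.trans (Nat.gcd_dvd_right _ _)
        have hr3 : (r : ℤ) ∣ (ζ : ℤ) ^ 2 - z :=
          dvd_trans (by exact_mod_cast hr1.trans hhm) hζ.2
        have hr4 : (r : ℤ) ∣ (ζ : ℤ) ^ 2 := by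
          rw [sq]
          exact Dvd.dvd.mul_right (by exact_mod_cast hr2) _
        have hr5 : (r : ℤ) ∣ (z : ℤ) := (dvd_sub_right hr4).1 hr3
        have hr6 : r ∣ z := by exact_mod_cast hr5
        have hr7 := Nat.dvd_gcd (hr1.trans hhm) hr6
        rw [Nat.coprime_iff_gcd_eq_one.1 hmz] at hr7
        exact hr.one_lt.ne' (Nat.dvd_one.1 hr7)
      have h2 : h ∣ 2 := hcop.dvd_of_dvd_mul_right hd'
      exact Nat.le_of_dvd (by norm_num) h2)
  rw [Finset.card_image_of_injective _ Nat.cast_injective] at h1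
  have hmR : (0 : ℝ) < m := by exact_mod_cast hm
  have h2 : (m : ℝ) * (2 : ℕ) / m + 1 = 3 := by
    push_cast
    field_simp
    norm_num
  rw [h2] at h1
  exact h1

theorem LAT_lab {m z : ℕ} (hm : 0 < m) (x y : ℤ) (hxy : (m : ℤ) ∣ x ^ 2 - z * y ^ 2) :
    ∃ h ∈ m.divisors, ∃ ζ < LAT_m m h, ((LAT_m m h : ℕ) : ℤ) ∣ (ζ : ℤ) ^ 2 - z ∧
      InLab (h, LAT_m m h, ζ) x y := by
  set h : ℕ := Nat.gcd (Int.gcd x y) m with hh
  have hh0 : 0 < h := Nat.gcd_pos_of_pos_right _ hm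
  have hhm : h ∣ m := Nat.gcd_dvd_right _ _
  have hhx : (h : ℤ) ∣ x :=
    dvd_trans (by exact_mod_cast Nat.gcd_dvd_left (Int.gcd x y) m) (Int.gcd_dvd_left x y)
  have hhy : (h : ℤ) ∣ y :=
    dvd_trans (by exact_mod_cast Nat.gcd_dvd_left (Int.gcd x y) m) (Int.gcd_dvd_right x y)
  obtain ⟨x', hx'⟩ := hhx
  obtain ⟨y', hy'⟩ := hhy
  set g : ℕ := Nat.gcd m (h ^ 2) with hg
  have hg0 : 0 < g := Nat.gcd_pos_of_pos_left _ hm
  have hmul : g * LAT_m m h = m := LAT_m_mul m h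
  have hm'0 := LAT_m_pos hm h
  set m' := LAT_m m h with hm'
  obtain ⟨k, hk⟩ : g ∣ h ^ 2 := Nat.gcd_dvd_right _ _
  have hcop : Nat.Coprime m' k := by
    have h1 := Nat.coprime_div_gcd_div_gcd (m := m) (n := h ^ 2) hg0
    have h2 : h ^ 2 / Nat.gcd m (h ^ 2) = k := by
      rw [← hg, hk]
      exact Nat.mul_div_cancel_left k hg0
    rw [h2] at h1
    exact h1
  have hdiv : (m' : ℤ) ∣ x' ^ 2 - z * y' ^ 2 := by
    have h1 : (m : ℤ) ∣ (h : ℤ) ^ 2 * (x' ^ 2 - z * y' ^ 2) := by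
      have : x ^ 2 - z * y ^ 2 = (h : ℤ) ^ 2 * (x' ^ 2 - z * y' ^ 2) := by rw [hx', hy']; ring
      rwa [this] at hxy
    have h2 : (g : ℤ) * m' ∣ (g : ℤ) * (k * (x' ^ 2 - z * y' ^ 2)) := by
      have e1 : ((g * m' : ℕ) : ℤ) = (m : ℤ) := by rw [hmul]
      have e2 : ((h : ℤ)) ^ 2 = (g : ℤ) * k := by exact_mod_cast hk
      rw [e2, ← e1] at h1
      push_cast at h1
      rwa [mul_assoc] at h1
    have h3 : (m' : ℤ) ∣ k * (x' ^ 2 - z * y' ^ 2) :=
      (mul_dvd_mul_iff_left (by exact_mod_cast hg0.ne')).1 h2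
    exact (Nat.isCoprime_iff_coprime.2 hcop).dvd_of_dvd_mul_left h3
  have hcy : IsCoprime y' (m' : ℤ) := by
    rw [Int.isCoprime_iff_gcd_eq_one]
    by_contra hne
    obtain ⟨r, hr, hrd⟩ := Nat.exists_prime_and_dvd hne
    have hr1 : (r : ℤ) ∣ y' := dvd_trans (by exact_mod_cast hrd) (Int.gcd_dvd_left y' (m' : ℤ))
    have hr2 : (r : ℤ) ∣ (m' : ℤ) := dvd_trans (by exact_mod_cast hrd) (Int.gcd_dvd_right y' (m' : ℤ))
    have hr3 : (r : ℤ) ∣ x' ^ 2 := by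
      have h1 := hr2.trans hdiv
      have h2 : (r : ℤ) ∣ z * y' ^ 2 := Dvd.dvd.mul_left (hr1.trans (Dvd.intro_left y' (by ring))) _
      have h3 : x' ^ 2 = (x' ^ 2 - z * y' ^ 2) + z * y' ^ 2 := by ring
      rw [h3]
      exact dvd_add h1 h2
    have hr4 : (r : ℤ) ∣ x' := (Nat.prime_iff_prime_int.1 hr).dvd_of_dvd_pow hr3
    have hhg : h ∣ g := Nat.dvd_gcd hhm (Dvd.intro_left h (by ring))
    have hrm' : r ∣ m' := by exact_mod_cast hr2
    have hrh : r * h ∣ m := by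
      rw [← hmul, mul_comm g]
      exact Nat.mul_dvd_mul hrm' hhg
    have hrx : ((r * h : ℕ) : ℤ) ∣ x := by
      rw [hx']
      push_cast
      rw [mul_comm (r : ℤ)]
      exact mul_dvd_mul_left _ hr4
    have hry : ((r * h : ℕ) : ℤ) ∣ y := by
      rw [hy']
      push_cast
      rw [mul_comm (r : ℤ)]
      exact mul_dvd_mul_left _ hr1
    have hrxy : r * h ∣ Int.gcd x y := Int.dvd_gcd hrx hry |> fun h => by exact_mod_cast h
    have hfin : r * h ∣ h := Nat.dvd_gcd hrxy hrh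
    have := Nat.le_of_dvd hh0 hfin
    have hr5 := hr.two_le
    nlinarith
  obtain ⟨a, b, hab⟩ := hcy
  have hm'Z : (0 : ℤ) < m' := by exact_mod_cast hm'0
  set t : ℤ := (a * x') % (m' : ℤ) with ht
  have ht0 : 0 ≤ t := Int.emod_nonneg _ hm'Z.ne'
  have htm : t < m' := Int.emod_lt_of_pos _ hm'Z
  have hte : (m' : ℤ) ∣ a * x' - t := Int.dvd_self_sub_emod
  have htx : (m' : ℤ) ∣ x' - t * y' := by
    have h1 : x' - t * y' = (a * x' - t) * y' + (m' : ℤ) * (b * x') := by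
      have h2 : x' = (a * y' + b * m') * x' := by rw [hab, one_mul]
      calc x' - t * y' = (a * y' + b * m') * x' - t * y' := by rw [← h2]
        _ = _ := by ring
    rw [h1]
    exact dvd_add (Dvd.dvd.mul_right hte _) (Dvd.intro _ rfl)
  have htz : (m' : ℤ) ∣ t ^ 2 - z := by
    have hc2 : IsCoprime (m' : ℤ) (y' ^ 2) := (IsCoprime.pow_left (m := 2) ⟨a, b, hab⟩).symm
    apply hc2.dvd_of_dvd_mul_left
    have h1 : y' ^ 2 * (t ^ 2 - z) = (x' ^ 2 - z * y' ^ 2) - (x' - t * y') * (x' + t * y') := by ring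
    rw [h1]
    exact dvd_sub hdiv (Dvd.dvd.mul_right htx _)
  obtain ⟨x₁, hx₁⟩ := htx
  have htn : ((t.toNat : ℕ) : ℤ) = t := Int.toNat_of_nonneg ht0
  refine ⟨h, Nat.mem_divisors.2 ⟨hhm, hm.ne'⟩, t.toNat, ?_, ?_, ?_⟩
  · have : ((t.toNat : ℕ) : ℤ) < m' := by rw [htn]; exact htm
    exact_mod_cast this
  · rw [htn]
    exact htz
  · refine ⟨x₁, y', ?_, hy'⟩
    show x = (h : ℤ) * ((m' : ℤ) * x₁ + ((t.toNat : ℕ) : ℤ) * y')
    rw [htn, ← hx₁, hx']
    ring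

theorem LAT : LAT_stmt := by
  classical
  intro ε hε
  obtain ⟨C, hC, hdiv⟩ := card_divisors_le (ε / 2) (by positivity)
  refine ⟨3 * C ^ 2, by nlinarith, fun m z hm hmz => ?_⟩
  refine ⟨m.divisors.biUnion (fun h => ((range (LAT_m m h)).filter
    (fun ζ : ℕ => ((LAT_m m h : ℕ) : ℤ) ∣ (ζ : ℤ) ^ 2 - z)).image (fun ζ => (h, LAT_m m h, ζ))), ?_, ?_, ?_⟩
  · have h1 : ∀ h ∈ m.divisors, ((((range (LAT_m m h)).filter
        (fun ζ : ℕ => ((LAT_m m h : ℕ) : ℤ) ∣ (ζ : ℤ) ^ 2 - z)).image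
          (fun ζ => (h, LAT_m m h, ζ))).card : ℝ) ≤ m.divisors.card * 3 := by
      intro h _
      refine le_trans (Nat.cast_le.2 Finset.card_image_le) ?_
      refine le_trans (LAT_count (LAT_m_pos hm h) (Nat.Coprime.coprime_dvd_left (LAT_m_dvd m h) hmz)) ?_
      refine mul_le_mul_of_nonneg_right ?_ (by norm_num)
      exact_mod_cast Finset.card_le_card (Nat.divisors_subset_of_dvd hm.ne' (LAT_m_dvd m h))
    have h2 := hdiv m hm
    have hmR : (0 : ℝ) < m := by exact_mod_cast hm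
    calc ((m.divisors.biUnion (fun h => ((range (LAT_m m h)).filter
          (fun ζ : ℕ => ((LAT_m m h : ℕ) : ℤ) ∣ (ζ : ℤ) ^ 2 - z)).image
            (fun ζ => (h, LAT_m m h, ζ)))).card : ℝ)
        ≤ ∑ h ∈ m.divisors, ((((range (LAT_m m h)).filter
          (fun ζ : ℕ => ((LAT_m m h : ℕ) : ℤ) ∣ (ζ : ℤ) ^ 2 - z)).image
            (fun ζ => (h, LAT_m m h, ζ))).card : ℝ) := by
          rw [← Nat.cast_sum]
          exact Nat.cast_le.2 Finset.card_biUnion_le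
      _ ≤ ∑ _h ∈ m.divisors, ((m.divisors.card : ℝ) * 3) := Finset.sum_le_sum h1
      _ = 3 * ((m.divisors.card : ℝ) * m.divisors.card) := by
          rw [Finset.sum_const, nsmul_eq_mul]; ring
      _ ≤ 3 * ((C * (m : ℝ) ^ (ε / 2)) * (C * (m : ℝ) ^ (ε / 2))) := by
          refine mul_le_mul_of_nonneg_left ?_ (by norm_num)
          exact mul_le_mul h2 h2 (by positivity) (by positivity)
      _ = 3 * C ^ 2 * ((m : ℝ) ^ (ε / 2) * (m : ℝ) ^ (ε / 2)) := by ring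
      _ = 3 * C ^ 2 * (m : ℝ) ^ ε := by
          rw [← Real.rpow_add hmR, add_halves]
  · intro l hl
    rw [Finset.mem_biUnion] at hl
    obtain ⟨h, _, hl⟩ := hl
    rw [Finset.mem_image] at hl
    obtain ⟨ζ, _, rfl⟩ := hl
    show m ∣ h ^ 2 * LAT_m m h
    have h1 := Nat.mul_dvd_mul (Nat.gcd_dvd_right m (h ^ 2)) (dvd_refl (LAT_m m h))
    rwa [LAT_m_mul] at h1
  · intro x y hxy
    obtain ⟨h, hh, ζ, hζ, hd, hlab⟩ := LAT_lab hm x y hxy
    refine ⟨(h, LAT_m m h, ζ), ?_, hlab⟩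
    rw [Finset.mem_biUnion]
    refine ⟨h, hh, ?_⟩
    rw [Finset.mem_image]
    exact ⟨ζ, by rw [Finset.mem_filter, mem_range]; exact ⟨hζ, hd⟩, rfl⟩

end Pool.Agent.helper27.TD
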