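import Pool.Agent.helper27.TD.Spec

/-!
# Row td:SUM (MP_16912e_nt): dyadic summation
-/

set_option autoImplicit false

namespace Pool.Agent.helper27.TD

open Finset Pool.Agent.helper47.RA

theorem SUM_ne {D : ℤ} (h : IsFund D) : D ≠ 1 ∧ D ≠ -1 := by
  constructor
  · rintro rfl
    rcases h with ⟨_, h3, _⟩ | ⟨m, h3, _⟩
    · exact h3 rfl
    · omega
  · rintro rfl
    rcases h with ⟨h3, _, _⟩ | ⟨m, h3, _⟩
    · omega
    · omega

open Classical in
/-- the fundamental discriminants of sign `s` with `1 < |D| ≤ M` -/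
noncomputable def SUM_T (s : ℤ) (M : ℕ) : Finset ℤ :=
  (Finset.Icc (-(M : ℤ)) M).filter (fun D => IsFund D ∧ 1 < s * D ∧ s * D ≤ M)

theorem SUM_T_succ (s : ℤ) (M : ℕ) : SUM_T s (2 * M) ⊆ SUM_T s M ∪ blk s M := by
  classical
  intro D hD
  unfold SUM_T at hD
  rw [Finset.mem_filter, Finset.mem_Icc] at hD
  obtain ⟨⟨h1, h2⟩, h3, h4, h5⟩ := hD
  rw [Finset.mem_union]
  unfold SUM_T blk
  rw [Finset.mem_filter, Finset.mem_filter, Finset.mem_Icc, Finset.mem_Icc]
  push_cast at h1 h2 h5 ⊢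
  by_cases h : s * D ≤ M
  · left
    refine ⟨?_, h3, h4, h⟩
    by_contra hcon
    have hs : (M : ℤ) < |D| := by
      rw [lt_abs]
      rcases not_and_or.1 hcon with h6 | h6
      · right; omega
      · left; omega
    have hs0 : s ≠ 0 := by
      rintro rfl
      omega
    have hs1 : 1 ≤ |s| := Int.one_le_abs hs0
    have h7 : |s * D| = s * D := abs_of_pos (by omega)
    have h8 : |D| ≤ |s| * |D| := le_mul_of_one_le_left (abs_nonneg D) hs1
    rw [← abs_mul, h7] at h8
    omega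
  · right
    exact ⟨⟨h1, h2⟩, h3, by omega, h5⟩

theorem SUM : SUM_stmt := by
  classical
  intro p θ hθ hyp
  have key : ∀ s : ℤ, (s = 1 ∨ s = -1) → ∃ C : ℝ, 0 ≤ C ∧ ∀ f : ℤ → ℕ, TorsF p f → ∀ N : ℕ, 1 ≤ N →
      ∑ D ∈ SUM_T s N, (f D : ℝ) ≤ C * (N : ℝ) ^ θ := by
    intro s hs
    obtain ⟨K, hK, hb⟩ := hyp s hs
    refine ⟨K * 2 ^ θ, by positivity, fun f hf N hN => ?_⟩
    have hind : ∀ n : ℕ, ∑ D ∈ SUM_T s (2 ^ n), (f D : ℝ) ≤ K * ((2 : ℝ) ^ n) ^ θ := by
      intro n
      induction n with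
      | zero =>
        have h1 : SUM_T s (2 ^ 0) = ∅ := by
          apply Finset.eq_empty_of_forall_notMem
          intro D hD
          unfold SUM_T at hD
          rw [Finset.mem_filter] at hD
          have h4 := hD.2.2.1
          have h5 := hD.2.2.2
          push_cast at h5
          omega
        rw [h1, Finset.sum_empty]
        positivity
      | succ n ih =>
        have hsub := SUM_T_succ s (2 ^ n)
        rw [← pow_succ'] at hsub
        have h0 : ∑ D ∈ SUM_T s (2 ^ (n + 1)), (f D : ℝ) ≤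
            ∑ D ∈ SUM_T s (2 ^ n), (f D : ℝ) + ∑ D ∈ blk s (2 ^ n), (f D : ℝ) := by
          calc ∑ D ∈ SUM_T s (2 ^ (n + 1)), (f D : ℝ)
              ≤ ∑ D ∈ SUM_T s (2 ^ n) ∪ blk s (2 ^ n), (f D : ℝ) :=
                Finset.sum_le_sum_of_subset_of_nonneg hsub fun D _ _ => Nat.cast_nonneg _
            _ ≤ ∑ D ∈ SUM_T s (2 ^ n) ∪ blk s (2 ^ n), (f D : ℝ) +
                ∑ D ∈ SUM_T s (2 ^ n) ∩ blk s (2 ^ n), (f D : ℝ) :=
                le_add_of_nonneg_right (Finset.sum_nonneg fun D _ => Nat.cast_nonneg _)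
            _ = _ := Finset.sum_union_inter
        have h1 := hb f hf (2 ^ n) Nat.one_le_two_pow
        push_cast at h1
        have h3 : ((2 : ℝ) ^ (n + 1)) ^ θ = 2 ^ θ * ((2 : ℝ) ^ n) ^ θ := by
          rw [pow_succ', Real.mul_rpow (by norm_num) (by positivity)]
        rw [h3]
        have h4 : (2 : ℝ) ≤ 2 ^ θ := by
          calc (2 : ℝ) = 2 ^ (1 : ℝ) := (Real.rpow_one _).symm
            _ ≤ 2 ^ θ := Real.rpow_le_rpow_of_exponent_le (by norm_num) hθ.le
        have h5 : (0 : ℝ) ≤ K * ((2 : ℝ) ^ n) ^ θ := by positivity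
        nlinarith
    have hNR : (1 : ℝ) ≤ N := by exact_mod_cast hN
    set n := Nat.clog 2 N with hn
    have hn1 : N ≤ 2 ^ n := Nat.le_pow_clog (by norm_num) N
    have hn2 : 2 ^ n ≤ 2 * N := by
      rcases Nat.eq_zero_or_pos n with h0 | h0
      · rw [h0, pow_zero]; omega
      · have h3 : 1 < N := by
          by_contra hcon
          have : N = 1 := by omega
          rw [hn, this, Nat.clog_one_right] at h0
          omega
        have h4 := Nat.pow_pred_clog_lt_self (b := 2) (by norm_num) h3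
        rw [← hn, Nat.pred_eq_sub_one] at h4
        have : 2 ^ n = 2 * 2 ^ (n - 1) := by
          rw [← pow_succ']; congr 1; omega
        omega
    have hsub : SUM_T s N ⊆ SUM_T s (2 ^ n) := by
      intro D hD
      unfold SUM_T at hD ⊢
      rw [Finset.mem_filter, Finset.mem_Icc] at hD ⊢
      have h1 : (N : ℤ) ≤ ((2 ^ n : ℕ) : ℤ) := by exact_mod_cast hn1
      obtain ⟨⟨h2, h3⟩, h4, h5, h6⟩ := hD
      exact ⟨⟨by omega, by omega⟩, h4, h5, by omega⟩
    calc ∑ D ∈ SUM_T s N, (f D : ℝ) ≤ ∑ D ∈ SUM_T s (2 ^ n), (f D : ℝ) :=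
          Finset.sum_le_sum_of_subset_of_nonneg hsub fun D _ _ => Nat.cast_nonneg _
      _ ≤ K * ((2 : ℝ) ^ n) ^ θ := hind n
      _ ≤ K * (2 * N) ^ θ := by
          refine mul_le_mul_of_nonneg_left ?_ hK
          refine Real.rpow_le_rpow (by positivity) ?_ (by linarith)
          exact_mod_cast hn2
      _ = K * 2 ^ θ * (N : ℝ) ^ θ := by
          rw [Real.mul_rpow (by norm_num) (by positivity)]; ring
  obtain ⟨C₁, hC₁, h₁⟩ := key 1 (Or.inl rfl)
  obtain ⟨C₂, hC₂, h₂⟩ := key (-1) (Or.inr rfl)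
  refine ⟨max C₁ C₂, fun f hf N => ?_⟩
  rcases Nat.eq_zero_or_pos N with hN | hN
  · subst hN
    have h0 : (0 : ℝ) ≤ max C₁ C₂ * ((0 : ℕ) : ℝ) ^ θ :=
      mul_nonneg (le_max_of_le_left hC₁) (Real.rpow_nonneg (by simp) _)
    refine ⟨?_, ?_⟩
    · simpa using h0
    · simpa using h0
  · have hNθ : (0 : ℝ) ≤ (N : ℝ) ^ θ := by positivity
    constructor
    · refine le_trans (Finset.sum_le_sum_of_subset_of_nonneg (t := SUM_T 1 N) ?_
        fun D _ _ => Nat.cast_nonneg _) (le_trans (h₁ f hf N hN)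
          (mul_le_mul_of_nonneg_right (le_max_left _ _) hNθ))
      intro D hD
      unfold SUM_T
      rw [Finset.mem_filter, Finset.mem_Ioo] at hD
      rw [Finset.mem_filter, Finset.mem_Icc]
      have := SUM_ne hD.2
      exact ⟨⟨by omega, by omega⟩, hD.2, by omega, by omega⟩
    · refine le_trans (Finset.sum_le_sum_of_subset_of_nonneg (t := SUM_T (-1) N) ?_
        fun D _ _ => Nat.cast_nonneg _) (le_trans (h₂ f hf N hN)
          (mul_le_mul_of_nonneg_right (le_max_right _ _) hNθ))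
      intro D hD
      unfold SUM_T
      rw [Finset.mem_filter, Finset.mem_Ioo] at hD
      rw [Finset.mem_filter, Finset.mem_Icc]
      have := SUM_ne hD.2
      exact ⟨⟨by omega, by omega⟩, hD.2, by omega, by omega⟩

end Pool.Agent.helper27.TD
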